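import Pool.Agent.K6.H5.PL.Final

/-!
A lower bound for the bond dimension of PEPS approximations of a gapped two-dimensional family.

The interaction `isingBox lam = -Z_{(0,0)} - lam X_{(0,0)} X_{(0,1)}` on the `2 × 2` box, with
`0 < lam < 1/2`, gives a gapped family with unique ground states `Ψ L` (decoupled transverse-field
Ising rings, one for each value of the first coordinate). For every `a < 1` there is `c > 0` such
that for all large `L` every PEPS, and every locally purified mixed state, of bond dimension at most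
`exp (c (log L)^(1/3))` has fidelity at most `exp (-2 L^a)` with `Ψ L`. Hence the exponent `k` in
Q1 cannot be smaller than `1/3`, even if only a fixed overlap with the ground state is asked for.
-/

set_option autoImplicit false
set_option linter.unusedSectionVars false

open scoped BigOperators Matrix InnerProductSpace
open Finset Matrix Pool.Agent.TH235.PP Pool.Agent.K6.H5.PL
open Pool.Agent.Results.MP_953b23_mp.OverlapBoosting (GappedFamily IsPurified)

namespace Pool.Agent.Results.MP_953b23_mp.BondDimensionLowerBound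

/-- The interaction `-Z_{(0,0)} - lam X_{(0,0)} X_{(0,1)}` on the `2 × 2` box, for `d = 2`: `Z` is
diagonal with entries `1, -1`, and `X` exchanges the two basis states. -/
noncomputable def isingBox (lam : ℝ) : BoxOp 2 2 := fun p q =>
  -(if p = q then (if p (0, 0) = 0 then 1 else -1) else 0) -
    (lam : ℂ) * (if p (0, 0) ≠ q (0, 0) ∧ p (0, 1) ≠ q (0, 1) ∧ p (1, 0) = q (1, 0) ∧
      p (1, 1) = q (1, 1) then 1 else 0)

theorem isingBox_eq (lam : ℝ) : isingBox lam = hbox lam := by
  ext p q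
  unfold isingBox hbox
  rw [Matrix.sub_apply, Matrix.neg_apply, Matrix.smul_apply, XX_ap, smul_eq_mul]
  congr 1
  · congr 1
    unfold Zo
    rw [Mon_ap]
    unfold z
    by_cases h : p = q
    · rw [if_pos h, if_pos h.symm]
    · rw [if_neg h, if_neg (fun hh => h hh.symm)]
  · congr 1
    have hiff : (p (0, 0) ≠ q (0, 0) ∧ p (0, 1) ≠ q (0, 1) ∧ p (1, 0) = q (1, 0) ∧
        p (1, 1) = q (1, 1)) ↔ q = flp (0, 1) (flp (0, 0) p) := by
      constructor
      · rintro ⟨h1, h2, h3, h4⟩
        funext v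
        obtain ⟨a, b⟩ := v
        fin_cases a <;> fin_cases b
        · show q (0, 0) = flp (0, 1) (flp (0, 0) p) (0, 0)
          rw [flp_ne (by decide), flp_same, fin2_ne h1]
        · show q (0, 1) = flp (0, 1) (flp (0, 0) p) (0, 1)
          rw [flp_same, flp_ne (by decide), fin2_ne h2]
        · show q (1, 0) = flp (0, 1) (flp (0, 0) p) (1, 0)
          rw [flp_ne (by decide), flp_ne (by decide), h3]
        · show q (1, 1) = flp (0, 1) (flp (0, 0) p) (1, 1)
          rw [flp_ne (by decide), flp_ne (by decide), h4]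
      · intro h
        have hne : ∀ a : Fin 2, a ≠ a + 1 := by decide
        refine ⟨?_, ?_, ?_, ?_⟩
        · rw [h, flp_ne (by decide), flp_same]; exact hne _
        · rw [h, flp_same, flp_ne (by decide)]; exact hne _
        · rw [h, flp_ne (by decide), flp_ne (by decide)]
        · rw [h, flp_ne (by decide), flp_ne (by decide)]
    by_cases h : p (0, 0) ≠ q (0, 0) ∧ p (0, 1) ≠ q (0, 1) ∧ p (1, 0) = q (1, 0) ∧
        p (1, 1) = q (1, 1)
    · rw [if_pos h, if_pos (hiff.1 h)]
    · rw [if_neg h, if_neg (fun hh => h (hiff.2 hh))]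

/-- For `0 < lam < 1/2` the interaction `isingBox lam` defines a gapped family (gap at least
`2 - 4 lam`) with unique ground states `Ψ L`, such that:

* for every `a < 1` there is `c > 0` such that for all large `L`, every locally purified state `X`
  (in particular every PEPS, the case of a one-dimensional ancilla) of bond dimension
  `D ≤ exp (c (log L)^(1/3))` has fidelity `∑ t, |⟨Ψ L, X t⟩|^2 ≤ exp (-2 L^a) ∑ t, ‖X t‖^2`;
* for all `k < 1/3` and `C`, for all large `L`, every PEPS of bond dimension at most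
  `exp (C (log L)^k)` is at distance larger than `1/2` from `Ψ L`. -/
theorem result (lam : ℝ) (h0 : 0 < lam) (h1 : lam < 1 / 2) :
    ∃ Ψ : ∀ L : ℕ, (Site L → Fin 2) → ℂ, GappedFamily (isingBox lam) (2 - 4 * lam) Ψ ∧
      (∀ a : ℝ, a < 1 → ∃ c : ℝ, 0 < c ∧ ∃ L₀ : ℕ, ∀ (L : ℕ) [NeZero L], L₀ ≤ L →
        ∀ (e D : ℕ) (X : (Site L → Fin e) → (Site L → Fin 2) → ℂ), IsPurified D X →
          (D : ℝ) ≤ Real.exp (c * Real.log L ^ (1 / 3 : ℝ)) →
            ∑ t, ‖ip (Ψ L) (X t)‖ ^ 2 ≤ Real.exp (-(2 * (L : ℝ) ^ a)) * ∑ t, normSq (X t)) ∧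
      ∀ k : ℝ, k < 1 / 3 → ∀ C : ℝ, ∃ L₀ : ℕ, ∀ (L : ℕ) [NeZero L], L₀ ≤ L →
        ∀ (D : ℕ) (φ : (Site L → Fin 2) → ℂ), IsPEPS D φ →
          (D : ℝ) ≤ Real.exp (C * Real.log L ^ k) → 1 / 2 < Real.sqrt (normSq (φ - Ψ L)) := by
  obtain ⟨Ψ, hF, hR⟩ := exists_rows h0 h1
  rw [isingBox_eq]
  refine ⟨Ψ, hF, ?_, ?_⟩
  · intro a ha
    obtain ⟨c, hc, L₀, h⟩ := overlap_all h0 (by linarith) a ha
    refine ⟨c, hc, max 2 L₀, ?_⟩
    intro L _ hL e D X hX hD
    obtain ⟨A, hA⟩ := hX
    rw [Finset.mul_sum]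
    refine Finset.sum_le_sum fun t _ => ?_
    exact h L (le_trans (le_max_right _ _) hL) (Ψ L) (hR L (le_trans (le_max_left _ _) hL)).2 D (X t)
      ⟨_, hA t⟩ hD
  · intro k hk C
    obtain ⟨c, hc, L₁, h⟩ := overlap_all h0 (by linarith) (1 / 2) (by norm_num)
    -- `C (log L)^k ≤ c (log L)^(1/3)` for large `L`
    have hlim : Filter.Tendsto (fun L : ℕ => Real.log (L : ℝ) ^ (1 / 3 - k)) Filter.atTop Filter.atTop :=
      (tendsto_rpow_atTop (by linarith)).comp (Real.tendsto_log_atTop.comp tendsto_natCast_atTop_atTop)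
    obtain ⟨L₂, hL₂⟩ := (Filter.eventually_atTop.1 (hlim.eventually_ge_atTop (C / c)))
    refine ⟨max (max 3 L₁) L₂, ?_⟩
    intro L _ hL D φ hφ hD
    have hL3 : 3 ≤ L := le_trans (le_trans (le_max_left _ _) (le_max_left _ _)) hL
    have hLr : (3 : ℝ) ≤ L := by exact_mod_cast hL3
    have hlog : 0 < Real.log L := Real.log_pos (by linarith)
    have h2 := hL₂ L (le_trans (le_max_right _ _) hL)
    rw [div_le_iff₀ hc] at h2
    have h3 : C * Real.log L ^ k ≤ c * Real.log L ^ (1 / 3 : ℝ) := by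
      calc C * Real.log L ^ k ≤ (Real.log L ^ (1 / 3 - k) * c) * Real.log L ^ k :=
            mul_le_mul_of_nonneg_right h2 (Real.rpow_nonneg hlog.le _)
        _ = c * (Real.log L ^ (1 / 3 - k) * Real.log L ^ k) := by ring
        _ = c * Real.log L ^ (1 / 3 : ℝ) := by rw [← Real.rpow_add hlog, sub_add_cancel]
    have h4 := hR L (by omega)
    have h5 := h L (le_trans (le_trans (le_max_right _ _) (le_max_left _ _)) hL) (Ψ L) h4.2 D φ hφ
      (hD.trans (Real.exp_le_exp.2 h3))
    have h6 : Real.exp (-(2 * (L : ℝ) ^ (1 / 2 : ℝ))) ≤ 1 / 2 := by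
      have h7 : (1 : ℝ) ≤ (L : ℝ) ^ (1 / 2 : ℝ) := Real.one_le_rpow (by linarith) (by norm_num)
      have h8 : Real.exp (-(2 * (L : ℝ) ^ (1 / 2 : ℝ))) ≤ Real.exp (-1) := Real.exp_le_exp.2 (by linarith)
      have h9 : Real.exp (-1) ≤ 1 / 2 := by
        rw [Real.exp_neg, inv_le_comm₀ (Real.exp_pos _) (by norm_num)]
        have := Real.add_one_le_exp (1 : ℝ)
        norm_num
        linarith
      exact h8.trans h9
    have h10 := dist_of_overlap (Ψ L) φ h4.1 (1 / 2) (by norm_num)
      (h5.trans (mul_le_mul_of_nonneg_right (by linarith) (Pool.Agent.K6.H5.PL.nSq_nonneg φ)))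
    have h11 : (1 / 2 : ℝ) ^ 2 < normSq (φ - Ψ L) := by norm_num at h10 ⊢; linarith
    exact Real.lt_sqrt_of_sq_lt h11

end Pool.Agent.Results.MP_953b23_mp.BondDimensionLowerBound
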