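import Pool.Agent.K6.H16.TF.FinalF

/-!
PEPS approximation of the ground states of ferromagnetic Ising models in a transverse and a
longitudinal field on the two-dimensional torus.

The interaction `tff J g μ` on the `R × R` box is
`-∑ x y, J x y Z_x Z_y - ∑ x, g x X_x - ∑ x, μ x Z_x` with arbitrary coefficients `J, g, μ ≥ 0`.

Part (A): if `h = ∑ x, μ x > 0`, then on every torus the ground state is unique and the gap is at
least `2 h`, and `Tr exp (-β (H - E_0))` is at most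
`exp (8 L^2 (1 + β (∑ J + ∑ g + 1)) (1 + h)^2 exp (-2 β (h - η)) / η)` for `0 < η ≤ h`.

Part (B): if `μ = 0`, then on every torus on which the ground state is unique and the gap is at least
`Δ`, `Tr exp (-β (H - E_0)) ≤ exp (8 L^8 exp (-Δ β / 2))`.

Part (C): in all cases, on every torus on which the ground state is unique and the gap is at least
`Δ`, there are at most `C L^(C m)` eigenvalues up to `E_0 + m`, and the ground state is within `ε` of
a PEPS of bond dimension at most `(L / ε)^C`; the constant `C` depends only on the interaction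
and on `Δ`.

Part (D): for every gapped family of such models the conclusion of the open problem holds with
`k = 1`, that is, with a polynomial bond dimension; if `∑ x, μ x > 0` there is such a family.
-/

set_option autoImplicit false

open scoped BigOperators Matrix
open Finset Pool.Agent.TH235.PP Pool.Agent.Results.MP_953b23_mp.OverlapBoosting
  Pool.Agent.Results.MP_953b23_mp.ThermalCriterion Pool.Agent.K6.H16.TF

namespace Pool.Agent.Results.MP_953b23_mp.FerromagneticIsing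

theorem result :
    (∀ (R : ℕ) (J : Fin R × Fin R → Fin R × Fin R → ℝ) (g μ : Fin R × Fin R → ℝ),
      (∀ x y, 0 ≤ J x y) → (∀ x, 0 ≤ g x) → (∀ x, 0 ≤ μ x) → 0 < ∑ x, μ x →
      ∀ (L : ℕ) [NeZero L], R ≤ L →
      (∃ ψ : (Site L → Fin 2) → ℂ, normSq ψ = 1 ∧
        IsGappedGround (ham (tff J g μ) L) (2 * ∑ x, μ x) ψ) ∧
      ∀ ψ : (Site L → Fin 2) → ℂ, normSq ψ = 1 →
        IsGappedGround (ham (tff J g μ) L) (2 * ∑ x, μ x) ψ →
        ∀ (hH : (ham (tff J g μ) L).IsHermitian) (β η : ℝ), 0 < β → 0 < η → η ≤ ∑ x, μ x →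
          partition hH (energy (ham (tff J g μ) L) ψ) β ≤
            Real.exp (8 * ((L : ℝ) ^ 2 * (1 + β * (∑ x, ∑ y, J x y + ∑ x, g x + 1))) / η *
              (1 + ∑ x, μ x) ^ 2 * Real.exp (-(2 * β * (∑ x, μ x - η))))) ∧
    (∀ (R : ℕ) (J : Fin R × Fin R → Fin R × Fin R → ℝ) (g : Fin R × Fin R → ℝ),
      (∀ x y, 0 ≤ J x y) → (∀ x, 0 ≤ g x) → ∀ (L : ℕ) [NeZero L], R ≤ L → ∀ Δ : ℝ, 0 < Δ →
      ∀ ψ : (Site L → Fin 2) → ℂ, normSq ψ = 1 →
        IsGappedGround (ham (tff J g fun _ => 0) L) Δ ψ →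
      ∀ (hH : (ham (tff J g fun _ => 0) L).IsHermitian) (β : ℝ), 0 < β →
        partition hH (energy (ham (tff J g fun _ => 0) L) ψ) β ≤
          Real.exp (8 * (L : ℝ) ^ 8 * Real.exp (-(Δ * β / 2)))) ∧
    (∀ (R : ℕ) (J : Fin (R + 1) × Fin (R + 1) → Fin (R + 1) × Fin (R + 1) → ℝ)
      (g μ : Fin (R + 1) × Fin (R + 1) → ℝ),
      (∀ x y, 0 ≤ J x y) → (∀ x, 0 ≤ g x) → (∀ x, 0 ≤ μ x) → ∀ Δ : ℝ, 0 < Δ →
      ∃ C : ℝ, 0 < C ∧ ∀ (L : ℕ) [NeZero L], 2 ≤ L → R + 1 ≤ L →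
        ∀ Ψ : (Site L → Fin 2) → ℂ, normSq Ψ = 1 → IsGappedGround (ham (tff J g μ) L) Δ Ψ →
        (∀ (hH : (ham (tff J g μ) L).IsHermitian) (m : ℝ), 0 ≤ m →
          (numStates hH (energy (ham (tff J g μ) L) Ψ + m) : ℝ) ≤ C * (L : ℝ) ^ (C * m)) ∧
        ∀ ε : ℝ, 0 < ε → ε ≤ 1 →
        ∃ (D : ℕ) (ψ : (Site L → Fin 2) → ℂ),
          (D : ℝ) ≤ ((L : ℝ) / ε) ^ C ∧ IsPEPS D ψ ∧ Real.sqrt (normSq (ψ - Ψ)) ≤ ε) ∧
    (∀ (R : ℕ) (J : Fin R × Fin R → Fin R × Fin R → ℝ) (g μ : Fin R × Fin R → ℝ),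
      (∀ x y, 0 ≤ J x y) → (∀ x, 0 ≤ g x) → (∀ x, 0 ≤ μ x) →
      (∀ (Δ : ℝ) (Ψ : ∀ L : ℕ, (Site L → Fin 2) → ℂ), GappedFamily (tff J g μ) Δ Ψ →
        ∀ c : ℝ, 0 < c → ∃ C : ℝ, Approx Ψ 1 C fun L => (L : ℝ) ^ (-c)) ∧
      (0 < ∑ x, μ x → ∃ Ψ : ∀ L : ℕ, (Site L → Fin 2) → ℂ,
        GappedFamily (tff J g μ) (2 * ∑ x, μ x) Ψ)) := by
  refine ⟨?_, ?_, ?_, ?_⟩
  · intro R J g μ hJ hg _ h0 L _ hL
    have h1 := ConclF.field_bound FinalF.top FinalF.spf FinalF.boxf J g μ hJ hg h0 L hL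
    refine ⟨h1.1, ?_⟩
    intro ψ hψ hgr hH β η hβ hη hηh
    exact h1.2 ψ _ hψ (by positivity) hgr hH β η hβ hη hηh
  · intro R J g hJ hg L _ hL Δ hΔ ψ hψ
    have e0 : tff J g (fun _ => 0) = tfi J g :=
      ConclF.tff_zero J g (fun _ => 0) (fun _ => le_rfl) (by simp)
    rw [e0]
    intro hgr hH β hβ
    exact Final.pb J g hJ hg L hL Δ hΔ ψ hψ hgr hH β hβ
  · intro R J g μ hJ hg hμ Δ hΔ
    obtain ⟨b, C₀, hb, hC₀, hG⟩ :=
      ConclF.gen_all Final.pb FinalF.top FinalF.spf FinalF.boxf J g μ hJ hg hμ Δ hΔ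
    obtain ⟨C, hC, hbond⟩ :=
      ConclF.bond (FinalF.boxf J g μ (R + 1) le_rfl).2 hΔ hb hC₀ hG
    refine ⟨C + b + Real.exp C₀, by positivity, ?_⟩
    intro L _ hL hRL Ψ hΨ hgr
    have hL1 : (1 : ℝ) ≤ L := by exact_mod_cast (by omega : 1 ≤ L)
    have he := Real.exp_pos C₀
    refine ⟨?_, ?_⟩
    · intro hH m hm
      refine (ConclF.states hb hG L hL hRL Ψ hΨ hgr hH m).trans ?_
      refine mul_le_mul (by linarith) ?_ (by positivity) (by positivity)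
      exact Real.rpow_le_rpow_of_exponent_le hL1 (mul_le_mul_of_nonneg_right (by linarith) hm)
    · intro ε hε hε1
      obtain ⟨D, ψ, hD, hP, herr⟩ := hbond L hL hRL Ψ hΨ hgr ε hε hε1
      refine ⟨D, ψ, hD.trans ?_, hP, herr⟩
      apply Real.rpow_le_rpow_of_exponent_le
      · rw [le_div_iff₀ hε]
        linarith
      · linarith
  · intro R J g μ hJ hg hμ
    refine ⟨?_, ?_⟩
    · intro Δ Ψ hF c hc
      obtain ⟨b, C₀, hb, hC₀, hG⟩ :=
        ConclF.gen_all Final.pb FinalF.top FinalF.spf FinalF.boxf J g μ hJ hg hμ Δ hF.gap_pos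
      exact ConclF.family hb hC₀ hG Ψ hF c hc
    · intro h0
      exact ConclF.fam_exists FinalF.top FinalF.spf FinalF.boxf J g μ hJ hg h0

end Pool.Agent.Results.MP_953b23_mp.FerromagneticIsing
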