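import Pool.Agent.K6.H5.TL.Count

/-!
# The gap does not bound the number of low-energy states

In two dimensions Q1 is known for gapped families with unique ground state such that the number of
eigenvalues up to `E_0(L) + M` is polynomial in `L` for each `M`; the starting files weaken this to a
quasi-polynomial number of states, or to a quasi-polynomial partition function `Tr exp (-β (H_L - E_0))`
at some `β ≤ C (log L)^k`. We show that these hypotheses do not follow from the gap, and have nothing
to do with the complexity of the ground states: **every** gapped family `(h₀, Ψ₀)` can be extended to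
a gapped family whose ground states are `Ψ₀ L ⊗ (product state)`, with the same ground energy, and
with at least `2 ^ ((L - 1) ^ 2)` eigenvalues equal to `E_0(L) + g`; here `g > 0` is arbitrary, and for
`g = Δ₀` the gap is the same. So Q1 for all gapped families is equivalent to Q1 for the gapped
families for which the number of states directly above the gap is as large as possible, up to the
base. A product state with such a spectrum is obtained if `Ψ₀` is a product state.

Construction. The second system is classical, with a finite number of tiles at each site; `g` is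
counted for each bad site, i.e. each site whose tile does not match those of its right and its upper
neighbour. There are a blank tile (which matches only itself), a horizontal and a vertical wall, the
crossing of two walls (which is always bad), and interior tiles of three kinds, `U` (above the
diagonal), `D` (on the diagonal), `V` (below the diagonal). Above a horizontal wall there are `V` and
`D`, below it `U` and `D`, to the right of a vertical wall `U` and `D`, to the left of it `V` and `D`.

* On a torus without bad sites there are no walls: the row above a horizontal wall consists of `V`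
  and `D`, and as `D` is followed by `V` it consists of `V`; this goes on with all the next rows, but
  below a wall there is no `V`. The same for vertical walls.
* The interior tiles also carry the digits 1, 2, 3 and carries such that the sum `S` of the digits of
  a row of interior tiles which goes around the torus is multiplied by `2` or by `2/3` in the next row
  (the idea of Kari's aperiodic tile sets). So if all tiles are interior then `2 ^ L = 3 ^ j`. Hence
  the blank configuration is the only one without bad sites.
* There are configurations with exactly one bad site: the tiles of the row `0` are horizontal walls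
  and those of the column `0` vertical walls, with a crossing at `(0, 0)`; the remaining tiles are
  interior ones, with the diagonal from the lower left to the upper right corner, and with the digits
  of the Beatty sequences of the numbers `2 ^ y / 3 ^ j` in `[1, 3)`. The interior tiles have a free
  bit, so there are `2 ^ ((L - 1) ^ 2)` such configurations.
-/

set_option autoImplicit false
set_option linter.unusedSectionVars false

open scoped BigOperators Matrix
open Finset Pool.Agent.TH235.PP Pool.Agent.K6.H5.TL
open Pool.Agent.Results.MP_953b23_mp.OverlapBoosting (GappedFamily)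
open Pool.Agent.Results.MP_953b23_mp.ThermalCriterion (partition numStates energy FewStates
  SmallPartition)

namespace Pool.Agent.Results.MP_953b23_mp.ManyLowEnergyStates

/-- Let `(h₀, Ψ₀)` be a gapped family with unique ground states and gap `Δ₀`, and `g > 0`. There are
an interaction `h` on the same box, with a larger local dimension, and vectors `Ψ L` such that
1. `(h, Ψ)` is a gapped family with unique ground states and gap `min Δ₀ g`;
2. for all `L`, `D`, `ε`, the vector `Ψ L` is within `ε` of a PEPS of bond dimension `D` if and only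
   if `Ψ₀ L` is;
3. for all large `L` the Hamiltonian `H_L` has at least `2 ^ ((L - 1) ^ 2)` eigenvalues equal to
   `E_0(L) + g`, so that `Tr exp (-β (H_L - E_0(L))) ≥ 2 ^ ((L - 1) ^ 2) exp (-β g)` for all `β`;
4. the criteria for Q1 by numbers of states up to `E_0 + m` (at most `exp (C (m + 1) (log L)^k)` for
   all large `L` and all `m`) and by partition functions (at most `exp (C (log L)^k)` for all large
   `L` at some `0 ≤ β ≤ C (log L)^k`) fail for `(h, Ψ)`, for all `k` and `C`. -/
theorem result {d₀ R : ℕ} (hR : 2 ≤ R) (h₀ : BoxOp d₀ R) {Δ₀ : ℝ}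
    {Ψ₀ : ∀ L : ℕ, (Site L → Fin d₀) → ℂ} (hF : GappedFamily h₀ Δ₀ Ψ₀) {g : ℝ} (hg : 0 < g) :
    ∃ (d : ℕ) (h : BoxOp d R) (Ψ : ∀ L : ℕ, (Site L → Fin d) → ℂ),
      GappedFamily h (min Δ₀ g) Ψ ∧
      (∀ (L : ℕ) [NeZero L] (D : ℕ) (ε : ℝ),
        (∃ φ : (Site L → Fin d) → ℂ, IsPEPS D φ ∧ Real.sqrt (normSq (φ - Ψ L)) ≤ ε) ↔
          ∃ φ : (Site L → Fin d₀) → ℂ, IsPEPS D φ ∧ Real.sqrt (normSq (φ - Ψ₀ L)) ≤ ε) ∧
      (∃ L₀ : ℕ, ∀ (L : ℕ) [NeZero L], L₀ ≤ L → ∀ hH : (ham h L).IsHermitian,
        2 ^ ((L - 1) ^ 2) ≤
            (univ.filter fun j => hH.eigenvalues j = energy (ham h L) (Ψ L) + g).card ∧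
          ∀ β : ℝ, 2 ^ ((L - 1) ^ 2) * Real.exp (-(β * g)) ≤
            partition hH (energy (ham h L) (Ψ L)) β) ∧
      ∀ (k : ℕ) (C : ℝ), ¬ FewStates h Ψ k C ∧ ¬ SmallPartition h Ψ k C := by
  classical
  obtain ⟨L₁, hL₁⟩ := hF.ground
  have hherm := hX_herm g hR h₀ hF.herm
  -- the number of eigenvalues and the partition function
  have key : ∀ (L : ℕ) [NeZero L], L₁ ≤ L → ∀ hH : (ham (hX g hR h₀) L).IsHermitian,
      2 ^ ((L - 1) ^ 2) ≤ (univ.filter fun j => hH.eigenvalues j =
          energy (ham (hX g hR h₀) L) (plc blank (Ψ₀ L)) + g).card ∧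
        ∀ β : ℝ, 2 ^ ((L - 1) ^ 2) * Real.exp (-(β * g)) ≤
          partition hH (energy (ham (hX g hR h₀) L) (plc blank (Ψ₀ L))) β := by
    intro L _ hL hH
    obtain ⟨hn, E, hE, -, -⟩ := hL₁ L hL
    have hψ : Ψ₀ L ≠ 0 := by
      intro h0
      rw [h0] at hn
      unfold normSq at hn
      simp at hn
    have hen : energy (ham (hX g hR h₀) L) (plc blank (Ψ₀ L)) = E := by
      have h1 := plc_eig (g := g) hR h₀ blank (Ψ₀ L) E hE
      rw [En_blank, Nat.cast_zero, mul_zero, add_zero] at h1
      unfold energy
      rw [h1, ip_smul_right, ip_self_one _ (by rw [normSq_plc]; exact hn), mul_one,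
        Complex.ofReal_re]
    rw [hen]
    have h2 := many (g := g) hR h₀ hψ hE hH
    refine ⟨h2, fun β => ?_⟩
    unfold partition
    have h3 : ∑ j ∈ univ.filter (fun j => hH.eigenvalues j = E + g),
        Real.exp (-(β * (hH.eigenvalues j - E))) ≤
          ∑ j, Real.exp (-(β * (hH.eigenvalues j - E))) :=
      Finset.sum_le_sum_of_subset_of_nonneg (Finset.filter_subset _ _)
        fun j _ _ => (Real.exp_pos _).le
    refine le_trans ?_ h3
    rw [Finset.sum_congr rfl fun j hj => by
      rw [(mem_filter.1 hj).2, add_sub_cancel_left], Finset.sum_const, nsmul_eq_mul]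
    refine mul_le_mul_of_nonneg_right ?_ (Real.exp_pos _).le
    exact_mod_cast h2
  refine ⟨nT * d₀, hX g hR h₀, fun L => plc blank (Ψ₀ L), ?_, ?_, ⟨L₁, key⟩, ?_⟩
  · refine ⟨by omega, hherm, lt_min hF.gap_pos hg, L₁, fun L _ hL => ?_⟩
    obtain ⟨hn, hgr⟩ := hL₁ L hL
    exact ⟨by rw [normSq_plc]; exact hn, gapped hg hR h₀ hF.gap_pos hgr⟩
  · intro L _ D ε
    exact peps_iff (Ψ₀ L)
  · intro k C
    constructor
    · rintro ⟨L₂, hL₂⟩
      obtain ⟨m, hm⟩ := exists_nat_ge g
      obtain ⟨L₃, hL₃⟩ := growth k (C * (m + 1) / 2)
      obtain ⟨L, hL⟩ : ∃ L, L = max 1 (max L₁ (max L₂ L₃)) := ⟨_, rfl⟩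
      have h1 : 1 ≤ L := by rw [hL]; exact le_max_left _ _
      have : NeZero L := ⟨by omega⟩
      have h2 : L₁ ≤ L := by rw [hL]; exact (le_max_left _ _).trans (le_max_right _ _)
      have h3 : L₂ ≤ L := by
        rw [hL]; exact ((le_max_left _ _).trans (le_max_right _ _)).trans (le_max_right _ _)
      have h4 : L₃ ≤ L := by
        rw [hL]; exact ((le_max_right _ _).trans (le_max_right _ _)).trans (le_max_right _ _)
      have hH : (ham (hX g hR h₀) L).IsHermitian := ham_herm _ hherm
      have h5 := hL₂ L h3 hH m
      have h6 := (key L h2 hH).1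
      have h7 : (univ.filter fun j => hH.eigenvalues j =
          energy (ham (hX g hR h₀) L) (plc blank (Ψ₀ L)) + g).card ≤
          numStates hH (energy (ham (hX g hR h₀) L) (plc blank (Ψ₀ L)) + m) := by
        unfold numStates
        refine Finset.card_le_card fun j hj => ?_
        rw [mem_filter] at hj ⊢
        refine ⟨mem_univ _, ?_⟩
        rw [hj.2]
        linarith
      have h8 : ((2 : ℝ) ^ ((L - 1) ^ 2)) ≤
          (numStates hH (energy (ham (hX g hR h₀) L) (plc blank (Ψ₀ L)) + m) : ℝ) := by
        exact_mod_cast h6.trans h7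
      have h9 := hL₃ L h4
      have h10 : 2 * (C * (m + 1) / 2 * Real.log L ^ k) = C * (m + 1) * Real.log L ^ k := by ring
      rw [h10] at h9
      linarith
    · rintro ⟨L₂, hL₂⟩
      obtain ⟨L₃, hL₃⟩ := growth k (C * (g + 1) / 2)
      obtain ⟨L, hL⟩ : ∃ L, L = max 1 (max L₁ (max L₂ L₃)) := ⟨_, rfl⟩
      have h1 : 1 ≤ L := by rw [hL]; exact le_max_left _ _
      have : NeZero L := ⟨by omega⟩
      have h2 : L₁ ≤ L := by rw [hL]; exact (le_max_left _ _).trans (le_max_right _ _)
      have h3 : L₂ ≤ L := by
        rw [hL]; exact ((le_max_left _ _).trans (le_max_right _ _)).trans (le_max_right _ _)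
      have h4 : L₃ ≤ L := by
        rw [hL]; exact ((le_max_right _ _).trans (le_max_right _ _)).trans (le_max_right _ _)
      have hH : (ham (hX g hR h₀) L).IsHermitian := ham_herm _ hherm
      obtain ⟨β, hβ0, hβ, hp⟩ := hL₂ L h3 hH
      have h6 := ((key L h2 hH).2 β).trans hp
      have h9 := hL₃ L h4
      have h10 : 2 * (C * (g + 1) / 2 * Real.log L ^ k) =
          C * Real.log L ^ k * g + C * Real.log L ^ k := by ring
      rw [h10, Real.exp_add] at h9
      have h11 : Real.exp (β * g) ≤ Real.exp (C * Real.log L ^ k * g) :=
        Real.exp_le_exp.2 (mul_le_mul_of_nonneg_right hβ hg.le)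
      have h12 : (2 : ℝ) ^ ((L - 1) ^ 2) ≤ Real.exp (C * Real.log L ^ k) * Real.exp (β * g) := by
        rw [Real.exp_neg, ← div_eq_mul_inv, div_le_iff₀ (Real.exp_pos _)] at h6
        exact h6
      have h13 : Real.exp (C * Real.log L ^ k) * Real.exp (β * g) ≤
          Real.exp (C * Real.log L ^ k) * Real.exp (C * Real.log L ^ k * g) :=
        mul_le_mul_of_nonneg_left h11 (Real.exp_pos _).le
      have h14 : Real.exp (C * Real.log L ^ k) * Real.exp (C * Real.log L ^ k * g) =
          Real.exp (C * Real.log L ^ k * g) * Real.exp (C * Real.log L ^ k) := mul_comm _ _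
      linarith

end Pool.Agent.Results.MP_953b23_mp.ManyLowEnergyStates
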