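import Pool.Agent.K6.H5.CC.MAT
import Pool.Agent.K6.H5.CC.LOC
import Pool.Agent.K6.H5.CC.PMP
import Pool.Agent.K6.H5.CC.RBA
import Pool.Agent.K6.H5.CC.EXB
import Pool.Agent.K6.H5.CC.CNJ
import Pool.Agent.K6.H5.CC.EXA
import Pool.Agent.K6.H5.CC.THB
import Pool.Agent.K6.H5.CC.RED
import Pool.Agent.K6.H5.CC.RSB
import Pool.Agent.K6.H5.CC.ROW
import Pool.Agent.K6.H5.CC.LIN
import Pool.Agent.K6.H5.CC.LIP
import Pool.Agent.K6.H5.CC.EST
import Pool.Agent.K6.H5.CC.FIX
import Pool.Agent.K6.H5.CC.NNA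
import Pool.Agent.K6.H5.CC.REL
import Pool.Agent.K6.H5.CC.SPE
import Pool.Agent.K6.H5.CC.CNT
import Pool.Agent.K6.H5.CC.CTC
import Pool.Agent.K6.H5.CC.NUM
import Pool.Agent.K6.H5.CC.TOR
import Pool.Agent.K6.H5.CC.Main
import Pool.Agent.Results.MP_953b23_mp.PreservedScale

/-!
# Weakly coupled systems: PEPS of polynomial bond dimension

Take any energy levels `0 = e_0 < g ≤ e_α` at each site and add any interaction `V` of finite range
with rows of norm at most `g / (100 R ^ 4)`. Then the Hamiltonians on the tori are gapped with a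
unique ground state, the number of eigenvalues up to `E_0 + m` is at most `exp (C (m + 1) log L)`, and
the ground states are approximated within every inverse polynomial error by PEPS of **polynomial**
bond dimension. There are no assumptions on the signs or on the form of the interaction.

Proof. Configurations of excited sites are created by commuting operators `a_c`; all matrices act on
row vectors. A contraction in an `ℓ¹` norm gives `A = ∑ A_c a_c` with
`e_vac exp(A) H exp(-A) = E e_vac` (the equations of the coupled cluster method). As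
`e_n = e_vac a_n` and `a_n` commutes with the interactions away from `n`, the row `n` of
`W = exp(A) H exp(-A) - E - ∑ e` has `ℓ¹` norm at most a small multiple of the energy of `n`. This
gives the gap and the uniqueness of the ground state directly, and the number of eigenvalues up to
`E_0 + m` by the following elementary argument: in a space of row vectors of dimension larger than
`J N`, spanned by eigenvectors up to `E_0 + m`, there is a vector `u` such that `u T ^ j`, `j < J`, have
no components at the `N` configurations of energy less than `4 (m + 1)`, so that the norm of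
`u T ^ J` is at least `(2 (m + 1)) ^ J` times that of `u`; but it is at most `m ^ J exp (O (L ^ 2))` times
that of `u`, a contradiction if `J` is a large multiple of `L ^ 2`. The starting theorem
`PreservedScale` gives the PEPS.

The pieces of the proof were written by helper3, helper5, helper7, helper13, helper20, helper35,
helper37, helper52, helper58, helper75, helper78, helper84 of the team.
-/

set_option autoImplicit false
set_option linter.unusedSectionVars false

open scoped BigOperators Matrix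
open Finset Pool.Agent.TH235.PP Pool.Agent.K6.H5.CC
open Pool.Agent.Results.MP_953b23_mp.OverlapBoosting (GappedFamily Approx)
open Pool.Agent.Results.MP_953b23_mp.ThermalCriterion (numStates energy FewStates)

namespace Pool.Agent.Results.MP_953b23_mp.WeakCoupling

theorem thb : S_THB := t_THB t_MAT t_RBA t_EXB (t_EXA t_MAT)

theorem red : S_RED := t_RED t_MAT t_LOC (t_EXA t_MAT)

theorem est : S_EST :=
  t_EST red t_RSB (t_LIN t_RBA (t_EXA t_MAT) thb)
    (t_LIP t_MAT t_RBA (t_EXA t_MAT) thb (t_ROW t_MAT t_PMP (t_EXA t_MAT))) (t_EXA t_MAT)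

theorem fix : S_FIX := t_FIX est t_RSB

theorem rel : S_REL :=
  t_REL t_MAT t_RBA t_LOC (t_EXA t_MAT) thb red t_RSB (t_NNA t_MAT t_CNJ)

/-- **Weakly coupled systems.** Let `e` be energies at one site with `e 0 = 0` and `g ≤ e α` for
`α ≠ 0`, `g > 0`, and `V` a Hermitian interaction on the `R × R` box whose rows have `ℓ¹` norm at most
`g / (100 R ^ 4)`. Then the family `H_L = ∑_u (e(n_u) + V_u)` on the `L × L` tori is gapped with unique
ground states `Ψ L` and gap at least `g / 2`; for some `C`, all `L ≥ 2` and all `m`, at most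
`exp (C (m + 1) log L)` eigenvalues of `H_L` are at most `E_0(L) + m`; and for every `c > 0` there is `C`
such that for all large `L` some PEPS of bond dimension at most `L ^ C` is within `L ^ (-c)` of
`Ψ L`. -/
theorem result {d R : ℕ} [NeZero d] (hR : 0 < R) (e : Fin d → ℝ) {g : ℝ} (hg : 0 < g)
    (he0 : e 0 = 0) (he : ∀ α, α ≠ 0 → g ≤ e α) (V : BoxOp d R) (hV : V.IsHermitian)
    (hsmall : ∀ p, ∑ q, ‖V p q‖ ≤ g / (100 * (R : ℝ) ^ 4)) :
    ∃ Ψ : ∀ L : ℕ, (Site L → Fin d) → ℂ,
      GappedFamily (onsite hR e + V) (g / 2) Ψ ∧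
      (∃ C : ℝ, ∀ (L : ℕ) [NeZero L], 2 ≤ L →
        ∀ (hH : (ham (onsite hR e + V) L).IsHermitian) (m : ℕ),
          (numStates hH (energy (ham (onsite hR e + V) L) (Ψ L) + m) : ℝ) ≤
            Real.exp (C * (m + 1) * Real.log L)) ∧
      ∀ c : ℝ, 0 < c → ∃ (C : ℝ) (L₀ : ℕ), ∀ (L : ℕ) [NeZero L], L₀ ≤ L →
        ∃ (D : ℕ) (ψ : (Site L → Fin d) → ℂ), (D : ℝ) ≤ (L : ℝ) ^ C ∧ IsPEPS D ψ ∧
          Real.sqrt (normSq (ψ - Ψ L)) ≤ (L : ℝ) ^ (-c) := by
  classical
  have hherm : (onsite hR e + V).IsHermitian := by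
    refine Matrix.IsHermitian.add ?_ hV
    refine Matrix.IsHermitian.ext fun p q => ?_
    unfold onsite
    by_cases h : q = p
    · subst h
      rw [if_pos rfl]
      exact Complex.conj_ofReal _
    · rw [if_neg h, if_neg fun h' => h h'.symm, star_zero]
  have hHL : ∀ (L : ℕ) [NeZero L], (ham (onsite hR e + V) L).IsHermitian := fun L _ =>
    ham_herm _ hherm
  have one : ∀ (L : ℕ) [NeZero L], ∃ Ψ : (Site L → Fin d) → ℂ, normSq Ψ = 1 ∧
      IsGappedGround (ham (onsite hR e + V) L) (g / 2) Ψ ∧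
      ∀ m : ℕ, (numStates (hHL L) (energy (ham (onsite hR e + V) L) Ψ + m) : ℝ) ≤
        (((4 + 4 * d) * L ^ 2 : ℕ) : ℝ) *
          ((1 + L ^ 2 * d : ℕ) : ℝ) ^ ⌊4 * ((m : ℝ) + 1) / g⌋₊ := fun L _ =>
    Main.one_torus t_MAT t_EXB (t_EXA t_MAT) t_RSB fix rel t_SPE t_CNT t_CTC t_TOR hR hg he0 he
      hsmall L (hHL L)
  obtain ⟨Ψ, hΨ⟩ : ∃ Ψ : ∀ L : ℕ, (Site L → Fin d) → ℂ, ∀ (L : ℕ) [NeZero L],
      normSq (Ψ L) = 1 ∧ IsGappedGround (ham (onsite hR e + V) L) (g / 2) (Ψ L) ∧
      ∀ m : ℕ, (numStates (hHL L) (energy (ham (onsite hR e + V) L) (Ψ L) + m) : ℝ) ≤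
        (((4 + 4 * d) * L ^ 2 : ℕ) : ℝ) *
          ((1 + L ^ 2 * d : ℕ) : ℝ) ^ ⌊4 * ((m : ℝ) + 1) / g⌋₊ := by
    refine ⟨fun L => if h : L = 0 then 0 else
      haveI : NeZero L := ⟨h⟩; Classical.choose (one L), fun L inst => ?_⟩
    simp only [dif_neg inst.ne]
    exact Classical.choose_spec (one L)
  have hF : GappedFamily (onsite hR e + V) (g / 2) Ψ :=
    ⟨hR, hherm, half_pos hg, 0, fun L _ _ => ⟨(hΨ L).1, (hΨ L).2.1⟩⟩
  obtain ⟨C, hC⟩ := t_NUM d g hg
  have hfew : ∀ (L : ℕ) [NeZero L], 2 ≤ L →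
      ∀ (hH : (ham (onsite hR e + V) L).IsHermitian) (m : ℕ),
        (numStates hH (energy (ham (onsite hR e + V) L) (Ψ L) + m) : ℝ) ≤
          Real.exp (C * (m + 1) * Real.log L) := fun L _ hL hH m =>
    ((hΨ L).2.2 m).trans (hC L m hL)
  refine ⟨Ψ, hF, ⟨C, hfew⟩, fun c hc => ?_⟩
  have hFew : FewStates (onsite hR e + V) Ψ 1 C :=
    ⟨2, fun L _ hL hH m => by rw [pow_one]; exact hfew L hL hH m⟩
  obtain ⟨C', L₀, h⟩ := PreservedScale.result.2.2 d R _ _ Ψ hF 1 le_rfl C (Or.inr hFew) c hc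
  refine ⟨C', max 1 L₀, fun L _ hL => ?_⟩
  obtain ⟨D, ψ, h1, h2, h3⟩ := h L ((le_max_right _ _).trans hL)
  refine ⟨D, ψ, ?_, h2, h3⟩
  have hL1 : (0 : ℝ) < L := by
    have : 1 ≤ L := (le_max_left _ _).trans hL
    exact_mod_cast this
  rwa [pow_one, mul_comm, ← Real.rpow_def_of_pos hL1] at h1

end Pool.Agent.Results.MP_953b23_mp.WeakCoupling
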